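import Pool.Agent.Helper63.P705.NR.Goals

/-!
# The function `nf` (goal `GN` of `θ ∈ [0.49, 1/2)`)
-/

namespace Pool.Agent.Helper34.NR

open MeasureTheory Set Filter Topology
open Pool.Agent.Helper53.PT
open Pool.Agent.Helper63.P705.NR

lemma sinh_mul_le {p x : ℝ} (hp0 : 0 ≤ p) (hp1 : p ≤ 1) (hx : 0 ≤ x) :
    Real.sinh (p * x) ≤ p * Real.sinh x := by
  have hmono : MonotoneOn (fun x => p * Real.sinh x - Real.sinh (p * x)) (Ici 0) := by
    apply monotoneOn_of_deriv_nonneg (convex_Ici 0)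
    · fun_prop
    · fun_prop
    · intro y hy
      rw [interior_Ici] at hy
      have hy' : 0 < y := hy
      have hd : HasDerivAt (fun x => p * Real.sinh x - Real.sinh (p * x))
          (p * Real.cosh y - Real.cosh (p * y) * (p * 1)) y := by
        exact ((Real.hasDerivAt_sinh y).const_mul p).sub (((hasDerivAt_id y).const_mul p).sinh)
      rw [hd.deriv]
      have : Real.cosh (p * y) ≤ Real.cosh y := by
        rw [Real.cosh_le_cosh, abs_of_nonneg (by positivity), abs_of_pos hy']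
        nlinarith
      nlinarith
  have h := hmono self_mem_Ici hx hx
  simp at h
  linarith

lemma sinh_sq_le {p x : ℝ} (hp0 : 0 ≤ p) (hp1 : p ≤ 1) :
    Real.sinh (p * x) ^ 2 ≤ p ^ 2 * Real.sinh x ^ 2 := by
  rcases le_total 0 x with hx | hx
  · have h := sinh_mul_le hp0 hp1 hx
    have h' : 0 ≤ Real.sinh (p * x) := Real.sinh_nonneg_iff.2 (by positivity)
    nlinarith
  · have h := sinh_mul_le hp0 hp1 (neg_nonneg.2 hx)
    have h' : 0 ≤ Real.sinh (p * (-x)) := Real.sinh_nonneg_iff.2 (mul_nonneg hp0 (neg_nonneg.2 hx))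
    rw [mul_neg, Real.sinh_neg] at h h'
    rw [Real.sinh_neg] at h
    nlinarith

lemma key {p x : ℝ} (hp0 : 0 ≤ p) (hp1 : p ≤ 1) :
    (Real.exp (p * x) - 1) ^ 2 ≤ p ^ 2 * Real.exp (p * x) * (Real.exp x + Real.exp (-x) - 2) := by
  have h := sinh_sq_le (x := x / 2) hp0 hp1
  have e1 : Real.exp x + Real.exp (-x) - 2 = 4 * Real.sinh (x / 2) ^ 2 := by
    rw [Real.sinh_eq]
    have a : Real.exp x = Real.exp (x / 2) ^ 2 := by
      rw [← Real.exp_nat_mul]; congr 1; push_cast; ring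
    have b : Real.exp (-x) = Real.exp (-(x / 2)) ^ 2 := by
      rw [← Real.exp_nat_mul]; congr 1; push_cast; ring
    have c : Real.exp (x / 2) * Real.exp (-(x / 2)) = 1 := by
      rw [← Real.exp_add]; simp
    rw [a, b]
    linear_combination 2 * c
  have e2 : (Real.exp (p * x) - 1) ^ 2 = Real.exp (p * x) * (4 * Real.sinh (p * (x / 2)) ^ 2) := by
    rw [Real.sinh_eq]
    have a : Real.exp (p * x) = Real.exp (p * (x / 2)) ^ 2 := by
      rw [← Real.exp_nat_mul]; congr 1; push_cast; ring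
    have c : Real.exp (p * (x / 2)) * Real.exp (-(p * (x / 2))) = 1 := by
      rw [← Real.exp_add]; simp
    rw [a]
    set A := Real.exp (p * (x / 2))
    set B := Real.exp (-(p * (x / 2)))
    linear_combination (2 * A ^ 2 - 1 - A * B) * c
  rw [e1, e2]
  have hpos := Real.exp_pos (p * x)
  nlinarith [mul_le_mul_of_nonneg_left h hpos.le]

/-- pointwise bound of `nf` -/
lemma nf_le {θ : ℝ} (h1 : 0.49 ≤ θ) (h2 : θ < 1 / 2) (hk : 0 < kap θ) {y : ℝ} (hy : 0 < y)
    (hz : 0 < zf θ y) :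
    nf θ y ≤ (1 / θ - 2) ^ 2 / de θ * (Real.exp (Real.log (kap θ) / (1 / θ - 2)) * (y ^ 2 * ff θ y) +
      Real.exp (-(Real.log (kap θ) / (1 / θ - 2))) * ff θ y - 2 * (y * ff θ y)) := by
  have h0 : 0 < θ := by linarith
  have hp : 0 < 1 / θ - 2 := by
    rw [sub_pos, lt_div_iff₀ h0]; linarith
  have hp1 : 1 / θ - 2 ≤ 1 := by
    have : 1 / θ ≤ 3 := by rw [div_le_iff₀ h0]; linarith
    linarith
  have hd : 0 < de θ := by unfold de; linarith
  have hv : vf θ y = Real.exp ((1 / θ - 2) * (Real.log (kap θ) / (1 / θ - 2) + Real.log y)) := by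
    unfold vf
    rw [Real.rpow_def_of_pos hy, mul_add, mul_div_cancel₀ _ hp.ne', Real.exp_add, Real.exp_log hk,
      mul_comm (Real.log y)]
  have h := key (x := Real.log (kap θ) / (1 / θ - 2) + Real.log y) hp.le hp1
  rw [← hv, Real.exp_add, neg_add, Real.exp_add, Real.exp_log hy, Real.exp_neg (Real.log y),
    Real.exp_log hy] at h
  set Λ := Real.exp (Real.log (kap θ) / (1 / θ - 2))
  set M := Real.exp (-(Real.log (kap θ) / (1 / θ - 2)))
  unfold nf ff
  rw [div_mul_eq_mul_div, div_le_div_iff_of_pos_right hd]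
  have h3 := mul_le_mul_of_nonneg_left h (mul_pos hy hz).le
  have e : y * zf θ y * ((1 / θ - 2) ^ 2 * vf θ y * (Λ * y + M * y⁻¹ - 2)) =
      (1 / θ - 2) ^ 2 * (Λ * (y ^ 2 * (vf θ y * zf θ y)) + M * (vf θ y * zf θ y) -
        2 * (y * (vf θ y * zf θ y))) := by
    field_simp
  rw [← e]
  exact h3

lemma integrable_zk {θ : ℝ}
    (hint : ∀ a : ℝ, -1 < a → IntegrableOn (fun y => y ^ a * zf θ y) (Ioi 0)) (k : ℕ) :
    IntegrableOn (fun y => y ^ k * zf θ y) (Ioi 0) := by
  have := hint k (by have : (0 : ℝ) ≤ k := by positivity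
                     linarith)
  simpa [Real.rpow_natCast] using this

lemma integrable_fk {θ : ℝ} (hp : 0 ≤ 1 / θ - 2)
    (hint : ∀ a : ℝ, -1 < a → IntegrableOn (fun y => y ^ a * zf θ y) (Ioi 0)) (k : ℕ) :
    IntegrableOn (fun y => y ^ k * ff θ y) (Ioi 0) := by
  have := (hint (1 / θ - 2 + k) (by have : (0 : ℝ) ≤ k := by positivity
                                    linarith)).const_mul (kap θ)
  refine IntegrableOn.congr_fun this (fun y hy => ?_) measurableSet_Ioi
  have hy' : 0 < y := hy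
  simp only [ff, vf]
  rw [Real.rpow_add hy', Real.rpow_natCast]
  ring

lemma vf_hasDeriv {θ y : ℝ} (hy : 0 < y) :
    HasDerivAt (vf θ) ((1 / θ - 2) * vf θ y / y) y := by
  have h := (Real.hasDerivAt_rpow_const (x := y) (p := 1 / θ - 2) (Or.inl hy.ne')).const_mul (kap θ)
  refine (h.congr_deriv ?_)
  unfold vf
  rw [Real.rpow_sub_one hy.ne']
  ring

lemma nf_hasDeriv {θ y : ℝ} (hy : 0 < y) (hz : HasDerivAt (zf θ) (-(y * ff θ y)) y) :
    HasDerivAt (nf θ) ((zf θ y * (vf θ y - 1) ^ 2 - y ^ 2 * ff θ y * (vf θ y - 1) ^ 2 +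
      2 * (1 / θ - 2) * (ff θ y * (vf θ y - 1))) / de θ) y := by
  have h := ((((hasDerivAt_id y).mul hz).mul (((vf_hasDeriv (θ := θ) hy).sub_const 1).pow 2))).div_const (de θ)
  refine (h.congr_deriv ?_)
  unfold ff
  simp only [id, Pi.mul_apply, Pi.pow_apply]
  field_simp
  ring

lemma tendsto_mul_bdd {U V : ℝ → ℝ} {l : Filter ℝ} {K : ℝ} (hU : Tendsto U l (𝓝 0))
    (hV : ∀ y, |V y| ≤ K) : Tendsto (U * V) l (𝓝 0) := by
  refine squeeze_zero_norm (a := fun y => ‖U y‖ * K) (fun y => ?_) ?_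
  · rw [Pi.mul_apply, norm_mul]
    exact mul_le_mul_of_nonneg_left (hV y) (norm_nonneg _)
  · simpa using hU.norm.mul_const K

lemma int3 {A B C : ℝ → ℝ} (a b c : ℝ) (hA : IntegrableOn A (Ioi 0)) (hB : IntegrableOn B (Ioi 0))
    (hC : IntegrableOn C (Ioi 0)) : ∫ y in Ioi (0 : ℝ), (a * A y + b * B y - c * C y) =
    a * (∫ y in Ioi (0 : ℝ), A y) + b * (∫ y in Ioi (0 : ℝ), B y) - c * ∫ y in Ioi (0 : ℝ), C y := by
  have h1 : Integrable (fun y => a * A y) (volume.restrict (Ioi 0)) := Integrable.const_mul hA a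
  have h2 : Integrable (fun y => b * B y) (volume.restrict (Ioi 0)) := Integrable.const_mul hB b
  have h3 : Integrable (fun y => c * C y) (volume.restrict (Ioi 0)) := Integrable.const_mul hC c
  have h12 : Integrable (fun y => a * A y + b * B y) (volume.restrict (Ioi 0)) := h1.add h2
  rw [integral_sub h12 h3, integral_add h1 h2, integral_const_mul, integral_const_mul,
    integral_const_mul]

lemma intadd {A B : ℝ → ℝ} (hA : IntegrableOn A (Ioi 0)) (hB : IntegrableOn B (Ioi 0)) :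
    ∫ y in Ioi (0 : ℝ), (A y + B y) = (∫ y in Ioi (0 : ℝ), A y) + ∫ y in Ioi (0 : ℝ), B y :=
  integral_add hA hB

lemma intacc {A B C : ℝ → ℝ} (c : ℝ) (hA : IntegrableOn A (Ioi 0)) (hB : IntegrableOn B (Ioi 0))
    (hC : IntegrableOn C (Ioi 0)) : ∫ y in Ioi (0 : ℝ), (A y + c * (B y + C y)) =
    (∫ y in Ioi (0 : ℝ), A y) + c * ((∫ y in Ioi (0 : ℝ), B y) + ∫ y in Ioi (0 : ℝ), C y) := by
  have h : IntegrableOn (fun y => c * (B y + C y)) (Ioi 0) := (hB.add hC).const_mul c
  rw [intadd hA h, integral_const_mul, intadd hB hC]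

theorem gN : GN := by
  intro hD hM hC θ h1 h2
  have h0 : 0 < θ := by linarith
  obtain ⟨hk, hs, hzc, hz, hzd, hfd, hint, -⟩ := hD θ h0 h2
  obtain ⟨mz0, mz1, mz2, mf0, mf1, mf2, mf3, mf4⟩ := hM hD θ h0 h2
  obtain ⟨c1, c2, c3, c4, c5, c6⟩ := hC hD hM θ h1 h2
  have hp : 0 < 1 / θ - 2 := by
    rw [sub_pos, lt_div_iff₀ h0]; linarith
  have hp1 : 1 / θ - 2 ≤ 0.0409 := by
    have : 1 / θ ≤ 2.0409 := by rw [div_le_iff₀ h0]; linarith
    linarith
  have hd : 0 < de θ := by unfold de; linarith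
  have hpd : 1 / θ - 2 = de θ / θ := by unfold de; field_simp
  have hp2 : (1 / θ - 2) ^ 2 / de θ ≤ 4.165 * de θ := by
    rw [hpd, div_pow, div_div, div_le_iff₀ (by positivity)]
    have : 1 ≤ 4.165 * θ ^ 2 := by nlinarith
    have h3 : 0 ≤ de θ ^ 2 := by positivity
    nlinarith
  have hpn : 0 ≤ (1 / θ - 2) ^ 2 / de θ := by positivity
  have iz := fun k => integrable_zk (θ := θ) hint k
  have jf := fun k => integrable_fk (θ := θ) hp.le hint k
  have if0 : IntegrableOn (ff θ) (Ioi 0) := by simpa using jf 0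
  have if1 : IntegrableOn (fun y => y * ff θ y) (Ioi 0) := by simpa using jf 1
  have iz0 : IntegrableOn (zf θ) (Ioi 0) := by simpa using iz 0
  have vpos : ∀ y, 0 < y → 0 < vf θ y := fun y hy => by
    unfold vf; exact mul_pos hk (Real.rpow_pos_of_pos hy _)
  have zpos : ∀ y, 0 < y → 0 < zf θ y := fun y hy => (hz y hy.le).1
  have fpos : ∀ y, 0 < y → 0 < ff θ y := fun y hy => mul_pos (vpos y hy) (zpos y hy)
  have npos : ∀ y, 0 < y → 0 ≤ nf θ y := fun y hy => by
    unfold nf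
    have := zpos y hy
    positivity
  have vcont : ContinuousOn (vf θ) (Ioi 0) := fun y hy => (vf_hasDeriv hy).continuousAt.continuousWithinAt
  have fcont : ContinuousOn (ff θ) (Ioi 0) := vcont.mul hzc.continuousOn
  have ncont : ContinuousOn (nf θ) (Ioi 0) := fun y hy =>
    (nf_hasDeriv hy (hzd y hy)).continuousAt.continuousWithinAt
  -- the parameter `Λ`
  set ℓ := Real.log (kap θ) / (1 / θ - 2) with hℓ
  have hℓ0 : 0 ≤ ℓ := div_nonneg (Real.log_nonneg c3) hp.le
  have hℓ1 : ℓ ≤ 0.806 := by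
    rw [hℓ, div_le_iff₀ hp, Real.log_le_iff_le_exp hk]
    exact c4
  have hΛ1 : 1 ≤ Real.exp ℓ := Real.one_le_exp hℓ0
  have hΛ2 : Real.exp ℓ ≤ 2.25 := by
    have a : Real.exp 0.806 * Real.exp 0.194 = Real.exp 1 := by
      rw [← Real.exp_add]; norm_num
    have b := Real.quadratic_le_exp_of_nonneg (x := 0.194) (by norm_num)
    have c := Real.exp_one_lt_d9
    have d : Real.exp ℓ ≤ Real.exp 0.806 := Real.exp_le_exp.2 hℓ1
    have e : Real.exp 0.806 ≤ 2.25 := by
      by_contra hcon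
      push Not at hcon
      nlinarith
    linarith
  have hM1 : Real.exp (-ℓ) ≤ (3.25 - Real.exp ℓ) / 2.25 := by
    have a : Real.exp ℓ * Real.exp (-ℓ) = 1 := by rw [← Real.exp_add]; simp
    have b : 0 < Real.exp (-ℓ) := Real.exp_pos _
    rw [le_div_iff₀ (by norm_num)]
    nlinarith [mul_nonneg (mul_nonneg (sub_nonneg.2 hΛ1) (sub_nonneg.2 hΛ2)) b.le]
  have hM0 : 0 < Real.exp (-ℓ) := Real.exp_pos _
  have hle : ∀ y, 0 < y → nf θ y ≤ (1 / θ - 2) ^ 2 / de θ * (Real.exp ℓ * (y ^ 2 * ff θ y) +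
      Real.exp (-ℓ) * ff θ y - 2 * (y * ff θ y)) := fun y hy => nf_le h1 h2 hk hy (zpos y hy)
  have hle' : ∀ y, 0 < y → y * nf θ y ≤ (1 / θ - 2) ^ 2 / de θ * (Real.exp ℓ * (y ^ 3 * ff θ y) +
      Real.exp (-ℓ) * (y * ff θ y) - 2 * (y ^ 2 * ff θ y)) := fun y hy => by
    refine (mul_le_mul_of_nonneg_left (hle y hy) hy.le).trans (le_of_eq ?_)
    ring
  have ib : IntegrableOn (fun y => (1 / θ - 2) ^ 2 / de θ * (Real.exp ℓ * (y ^ 2 * ff θ y) +
      Real.exp (-ℓ) * ff θ y - 2 * (y * ff θ y))) (Ioi 0) :=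
    (((((jf 2).const_mul (Real.exp ℓ)).add (if0.const_mul (Real.exp (-ℓ)))).sub
      (if1.const_mul 2)).const_mul ((1 / θ - 2) ^ 2 / de θ))
  have ib' : IntegrableOn (fun y => (1 / θ - 2) ^ 2 / de θ * (Real.exp ℓ * (y ^ 3 * ff θ y) +
      Real.exp (-ℓ) * (y * ff θ y) - 2 * (y ^ 2 * ff θ y))) (Ioi 0) :=
    (((((jf 3).const_mul (Real.exp ℓ)).add (if1.const_mul (Real.exp (-ℓ)))).sub
      ((jf 2).const_mul 2)).const_mul ((1 / θ - 2) ^ 2 / de θ))
  have inn : IntegrableOn (nf θ) (Ioi 0) := by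
    refine Integrable.mono' ib (ncont.aestronglyMeasurable measurableSet_Ioi) ?_
    filter_upwards [ae_restrict_mem measurableSet_Ioi] with y hy
    rw [Real.norm_of_nonneg (npos y hy)]
    exact hle y hy
  have iny : IntegrableOn (fun y => y * nf θ y) (Ioi 0) := by
    refine Integrable.mono' ib' ((continuousOn_id.mul ncont).aestronglyMeasurable measurableSet_Ioi) ?_
    filter_upwards [ae_restrict_mem measurableSet_Ioi] with y hy
    rw [Real.norm_of_nonneg (mul_nonneg (le_of_lt hy) (npos y hy))]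
    exact hle' y hy
  refine ⟨npos, inn, iny, ?_, ?_, ?_⟩
  · have h := setIntegral_mono_on inn ib measurableSet_Ioi (fun y hy => hle y hy)
    rw [integral_const_mul, int3 _ _ _ (jf 2) if0 if1, mf2, mf0, mf1] at h
    have h3 : Real.exp ℓ * 1 + Real.exp (-ℓ) * 1 - 2 * (1 / sg θ) ≤ 1.1005 := by
      have := hM1
      rw [le_div_iff₀ (by norm_num)] at this
      nlinarith
    calc _ ≤ _ := h
      _ ≤ (1 / θ - 2) ^ 2 / de θ * 1.1005 := mul_le_mul_of_nonneg_left h3 hpn
      _ ≤ 4.165 * de θ * 1.1005 := mul_le_mul_of_nonneg_right hp2 (by norm_num)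
      _ ≤ _ := by nlinarith
  · have h := setIntegral_mono_on iny ib' measurableSet_Ioi (fun y hy => hle' y hy)
    rw [integral_const_mul, int3 _ _ _ (jf 3) if1 (jf 2), mf2, mf3, mf1] at h
    have h3 : Real.exp ℓ * m3 θ + Real.exp (-ℓ) * (1 / sg θ) - 2 * 1 ≤ 2.2558 := by
      have := hM1
      rw [le_div_iff₀ (by norm_num)] at this
      have h4 : Real.exp ℓ * m3 θ ≤ Real.exp ℓ * 1.7321 :=
        mul_le_mul_of_nonneg_left c6 (by linarith)
      have h5 : Real.exp (-ℓ) * (1 / sg θ) ≤ Real.exp (-ℓ) * 0.806 :=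
        mul_le_mul_of_nonneg_left c2 hM0.le
      nlinarith
    calc _ ≤ _ := h
      _ ≤ (1 / θ - 2) ^ 2 / de θ * 2.2558 := mul_le_mul_of_nonneg_left h3 hpn
      _ ≤ 4.165 * de θ * 2.2558 := mul_le_mul_of_nonneg_right hp2 (by norm_num)
      _ ≤ _ := by nlinarith
  · intro u hu
    set p := 1 / θ - 2 with hpdef
    have hk2 : kap θ ≤ 1.0341 := by
      have a : Real.exp (0.806 * p) ≤ Real.exp 0.03297 := Real.exp_le_exp.2 (by linarith)
      have b := Real.one_sub_le_exp_neg 0.03297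
      have c : Real.exp 0.03297 * Real.exp (-0.03297) = 1 := by rw [← Real.exp_add]; simp
      have d : 0 < Real.exp 0.03297 := Real.exp_pos _
      nlinarith
    set D : ℝ → ℝ := fun y => (zf θ y * (vf θ y - 1) ^ 2 - y ^ 2 * ff θ y * (vf θ y - 1) ^ 2 +
      2 * p * (ff θ y * (vf θ y - 1))) / de θ with hDdef
    have hDd : ∀ y, 0 < y → HasDerivAt (nf θ) (D y) y := fun y hy => nf_hasDeriv hy (hzd y hy)
    have Dcont : ContinuousOn D (Ioi 0) := by
      have hv1 : ContinuousOn (fun y => vf θ y - 1) (Ioi 0) := vcont.sub continuousOn_const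
      exact ((((hzc.continuousOn.mul (hv1.pow 2)).sub (((continuousOn_id.pow 2).mul fcont).mul
        (hv1.pow 2)))).add (continuousOn_const.mul (fcont.mul hv1))).div_const _
    set B : ℝ → ℝ := fun y => (zf θ y + kap θ ^ 2 * (zf θ y + y ^ 2 * zf θ y)) +
      ((y ^ 2 * ff θ y + kap θ ^ 2 * (y ^ 2 * ff θ y + y ^ 4 * ff θ y)) +
        2 * p * (ff θ y + kap θ * (ff θ y + y ^ 2 * ff θ y))) with hBdef
    have vsq : ∀ y, 0 < y → vf θ y ^ 2 ≤ kap θ ^ 2 * (1 + y ^ 2) := by
      intro y hy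
      unfold vf
      rw [mul_pow]
      refine mul_le_mul_of_nonneg_left ?_ (by positivity)
      rw [← hpdef, ← Real.rpow_natCast, ← Real.rpow_mul hy.le]
      rcases le_total y 1 with hy1 | hy1
      · have := Real.rpow_le_one hy.le hy1 (z := p * (2 : ℕ)) (by positivity)
        nlinarith [sq_nonneg y]
      · have := Real.rpow_le_rpow_of_exponent_le hy1 (show p * (2 : ℕ) ≤ (2 : ℕ) by push_cast; linarith)
        rw [Real.rpow_natCast] at this
        nlinarith
    have vle : ∀ y, 0 < y → vf θ y ≤ kap θ * (1 + y ^ 2) := by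
      intro y hy
      unfold vf
      refine mul_le_mul_of_nonneg_left ?_ hk.le
      rw [← hpdef]
      rcases le_total y 1 with hy1 | hy1
      · have := Real.rpow_le_one hy.le hy1 (z := p) hp.le
        nlinarith [sq_nonneg y]
      · have := Real.rpow_le_rpow_of_exponent_le hy1 (show p ≤ (2 : ℕ) by push_cast; linarith)
        rw [Real.rpow_natCast] at this
        nlinarith
    have vm : ∀ y, 0 < y → (vf θ y - 1) ^ 2 ≤ 1 + kap θ ^ 2 * (1 + y ^ 2) := by
      intro y hy
      have a := vsq y hy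
      have b := vpos y hy
      nlinarith
    have hDB : ∀ y, 0 < y → |D y| ≤ B y / de θ := by
      intro y hy
      have a := vm y hy
      have b := vpos y hy
      have c := vle y hy
      have z0 := zpos y hy
      have f0 := fpos y hy
      have e1 : |zf θ y * (vf θ y - 1) ^ 2| ≤ zf θ y + kap θ ^ 2 * (zf θ y + y ^ 2 * zf θ y) := by
        rw [abs_of_nonneg (by positivity)]
        have := mul_le_mul_of_nonneg_left a z0.le
        linarith
      have e2 : |y ^ 2 * ff θ y * (vf θ y - 1) ^ 2| ≤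
          y ^ 2 * ff θ y + kap θ ^ 2 * (y ^ 2 * ff θ y + y ^ 4 * ff θ y) := by
        rw [abs_of_nonneg (by positivity)]
        have := mul_le_mul_of_nonneg_left a (show 0 ≤ y ^ 2 * ff θ y by positivity)
        linarith
      have e3 : |2 * p * (ff θ y * (vf θ y - 1))| ≤
          2 * p * (ff θ y + kap θ * (ff θ y + y ^ 2 * ff θ y)) := by
        rw [abs_mul, abs_of_nonneg (show 0 ≤ 2 * p by positivity)]
        refine mul_le_mul_of_nonneg_left ?_ (by positivity)
        rw [abs_mul, abs_of_pos f0]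
        have : |vf θ y - 1| ≤ 1 + kap θ * (1 + y ^ 2) := by
          rw [abs_le]
          constructor <;> nlinarith [mul_pos hk (show 0 < 1 + y ^ 2 by positivity)]
        have := mul_le_mul_of_nonneg_left this f0.le
        linarith
      simp only [hDdef, hBdef]
      rw [abs_div, abs_of_pos hd, div_le_div_iff_of_pos_right hd]
      have t1 := abs_add_le (zf θ y * (vf θ y - 1) ^ 2 - y ^ 2 * ff θ y * (vf θ y - 1) ^ 2)
        (2 * p * (ff θ y * (vf θ y - 1)))
      have t2 := abs_sub (zf θ y * (vf θ y - 1) ^ 2) (y ^ 2 * ff θ y * (vf θ y - 1) ^ 2)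
      linarith
    have iB1 : IntegrableOn (fun y => zf θ y + kap θ ^ 2 * (zf θ y + y ^ 2 * zf θ y)) (Ioi 0) :=
      iz0.add ((iz0.add (iz 2)).const_mul _)
    have iB2 : IntegrableOn (fun y => y ^ 2 * ff θ y + kap θ ^ 2 * (y ^ 2 * ff θ y + y ^ 4 * ff θ y)) (Ioi 0) :=
      (jf 2).add (((jf 2).add (jf 4)).const_mul _)
    have iB3 : IntegrableOn (fun y => 2 * p * (ff θ y + kap θ * (ff θ y + y ^ 2 * ff θ y))) (Ioi 0) :=
      (if0.add ((if0.add (jf 2)).const_mul _)).const_mul _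
    have iB : IntegrableOn B (Ioi 0) := iB1.add (iB2.add iB3)
    have vB : ∫ y in Ioi (0 : ℝ), B y ≤ 9 := by
      have e1 : ∫ y in Ioi (0 : ℝ), (zf θ y + kap θ ^ 2 * (zf θ y + y ^ 2 * zf θ y)) =
          1 + kap θ ^ 2 * (1 + mo θ 2 / 3) := by
        rw [intacc _ iz0 iz0 (iz 2), mz0, mz2]
      have e2 : ∫ y in Ioi (0 : ℝ), (y ^ 2 * ff θ y + kap θ ^ 2 * (y ^ 2 * ff θ y + y ^ 4 * ff θ y)) =
          1 + kap θ ^ 2 * (1 + mo θ 2) := by
        rw [intacc _ (jf 2) (jf 2) (jf 4), mf2, mf4]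
      have e3 : ∫ y in Ioi (0 : ℝ), 2 * p * (ff θ y + kap θ * (ff θ y + y ^ 2 * ff θ y)) =
          2 * p * (1 + kap θ * (1 + 1)) := by
        rw [integral_const_mul, intacc _ if0 if0 (jf 2), mf0, mf2]
      have e23 : ∫ y in Ioi (0 : ℝ), ((y ^ 2 * ff θ y + kap θ ^ 2 * (y ^ 2 * ff θ y + y ^ 4 * ff θ y)) +
          2 * p * (ff θ y + kap θ * (ff θ y + y ^ 2 * ff θ y))) =
          (1 + kap θ ^ 2 * (1 + mo θ 2)) + 2 * p * (1 + kap θ * (1 + 1)) := by
        rw [intadd iB2 iB3, e2, e3]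
      have e4 : ∫ y in Ioi (0 : ℝ), B y = (1 + kap θ ^ 2 * (1 + mo θ 2 / 3)) +
          ((1 + kap θ ^ 2 * (1 + mo θ 2)) + 2 * p * (1 + kap θ * (1 + 1))) := by
        rw [← e1, ← e23]
        exact intadd iB1 (iB2.add iB3)
      rw [e4]
      have k2 : kap θ ^ 2 ≤ 1.0694 := by nlinarith
      have k3 : kap θ ^ 2 * (1 + mo θ 2 / 3) ≤ 1.0694 * 2 := by
        have := mul_le_mul_of_nonneg_left (show 1 + mo θ 2 / 3 ≤ 2 by linarith) (sq_nonneg (kap θ))
        linarith
      have k4 : kap θ ^ 2 * (1 + mo θ 2) ≤ 1.0694 * 4 := by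
        have := mul_le_mul_of_nonneg_left (show 1 + mo θ 2 ≤ 4 by linarith) (sq_nonneg (kap θ))
        linarith
      have k5 : 2 * p * (1 + kap θ * (1 + 1)) ≤ 0.0818 * 3.0682 := by
        refine mul_le_mul (by linarith) (by linarith) (by positivity) (by norm_num)
      linarith
    have iD : IntegrableOn D (Ioi 0) := by
      refine Integrable.mono' (iB.div_const (de θ)) (Dcont.aestronglyMeasurable measurableSet_Ioi) ?_
      filter_upwards [ae_restrict_mem measurableSet_Ioi] with y hy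
      exact hDB y hy
    -- integration by parts
    have hV : ∀ y ∈ Ioi (0 : ℝ), HasDerivAt (fun y => -Real.cos (u * y) / u) (Real.sin (u * y)) y := by
      intro y _
      have h := (((hasDerivAt_id y).const_mul u).cos.neg).div_const u
      refine h.congr_deriv ?_
      simp only [id]
      field_simp
    have hVb : ∀ y, |(fun y => -Real.cos (u * y) / u) y| ≤ 1 / u := by
      intro y
      simp only
      rw [abs_div, abs_neg, abs_of_pos hu, div_le_div_iff_of_pos_right hu]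
      exact Real.abs_cos_le_one _
    have hVc : Continuous (fun y => -Real.cos (u * y) / u) := by fun_prop
    have i1 : IntegrableOn (nf θ * fun y => Real.sin (u * y)) (Ioi 0) := by
      refine Integrable.mono' inn.norm ((ncont.mul (by fun_prop)).aestronglyMeasurable measurableSet_Ioi) ?_
      filter_upwards with y
      rw [Pi.mul_apply, norm_mul]
      have := Real.abs_sin_le_one (u * y)
      calc ‖nf θ y‖ * ‖Real.sin (u * y)‖ ≤ ‖nf θ y‖ * 1 := mul_le_mul_of_nonneg_left this (norm_nonneg _)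
        _ = _ := mul_one _
    have i2 : IntegrableOn (D * fun y => -Real.cos (u * y) / u) (Ioi 0) := by
      refine Integrable.mono' (iD.norm.mul_const (1 / u)) ((Dcont.mul hVc.continuousOn).aestronglyMeasurable measurableSet_Ioi) ?_
      filter_upwards with y
      rw [Pi.mul_apply, norm_mul]
      exact mul_le_mul_of_nonneg_left (hVb y) (norm_nonneg _)
    have t0 : Tendsto (nf θ) (𝓝[>] 0) (𝓝 0) := by
      have hb : Tendsto (fun y : ℝ => y * (1 / sg θ) * (1 + kap θ ^ 2 * (1 + y ^ 2)) / de θ) (𝓝[>] 0) (𝓝 0) := by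
        have : Continuous (fun y : ℝ => y * (1 / sg θ) * (1 + kap θ ^ 2 * (1 + y ^ 2)) / de θ) := by fun_prop
        have h := (this.tendsto 0).mono_left (nhdsWithin_le_nhds (s := Ioi 0))
        simpa using h
      refine squeeze_zero_norm' ?_ hb
      filter_upwards [self_mem_nhdsWithin] with y hy
      have hy' : 0 < y := hy
      rw [Real.norm_of_nonneg (npos y hy')]
      unfold nf
      rw [div_le_div_iff_of_pos_right hd]
      have := (hz y hy'.le).2
      have z0 := zpos y hy'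
      refine mul_le_mul (mul_le_mul_of_nonneg_left this hy'.le) (vm y hy') (by positivity) (by positivity)
    have tI : Tendsto (nf θ) atTop (𝓝 0) :=
      tendsto_zero_of_hasDerivAt_of_integrableOn_Ioi (a := 0) (fun y hy => hDd y hy) iD inn
    have hparts := integral_Ioi_mul_deriv_eq_deriv_mul (a := (0 : ℝ)) (fun y hy => hDd y hy) hV i1 i2
      (tendsto_mul_bdd t0 hVb) (tendsto_mul_bdd tI hVb)
    have e : ∫ y in Ioi (0 : ℝ), nf θ y * Real.sin (u * y) =
        -∫ y in Ioi (0 : ℝ), D y * (-Real.cos (u * y) / u) := by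
      rw [hparts]; ring
    rw [e, abs_neg]
    have h5 : |∫ y in Ioi (0 : ℝ), D y * (-Real.cos (u * y) / u)| ≤
        ∫ y in Ioi (0 : ℝ), B y / de θ * (1 / u) := by
      rw [← Real.norm_eq_abs]
      refine norm_integral_le_of_norm_le ((iB.div_const (de θ)).mul_const (1 / u)) ?_
      filter_upwards [ae_restrict_mem measurableSet_Ioi] with y hy
      rw [norm_mul]
      exact mul_le_mul (hDB y hy) (hVb y) (norm_nonneg _) ((abs_nonneg _).trans (hDB y hy))
    refine h5.trans ?_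
    rw [integral_mul_const, integral_div, div_mul_div_comm, mul_one]
    exact div_le_div_of_nonneg_right vB (by positivity)

end Pool.Agent.Helper34.NR
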